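import Pool.Agent.H93.GT.Targets

/-!
# The zones of the pipes and of the stations
-/

namespace Pool.Agent.H16.GT

open Pool.Agent.H93.GT Pool.Agent.H87.Synth Pool.Agent.H85.SC Finset
open Pool.Agent.H93.ET (sg jj iE iA T_KKL T_CUT T_BRK T_SER T_CRI)

theorem pp_form (h2 : T_LNS) (n i : ℕ) (t κ : ℤ) (s : Bool) (hκ : κ = 0 ∨ κ = 1) :
    12 * (Mo n : ℤ) * t ≤ pp n i t κ s ∧ pp n i t κ s < 12 * (Mo n : ℤ) * t + 10 * Mo n := by
  obtain ⟨-, -, -, -, -, h5, h6, -⟩ := h2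
  obtain ⟨-, hρ, hl⟩ := h5 n i t κ s hκ
  obtain ⟨hc, hcc⟩ := h6 n
  obtain ⟨ha0, ha1⟩ := hcc (lc i) hl
  have hM : (0 : ℤ) ≤ Mo n := by positivity
  have hj : jj s = 0 ∨ jj s = 1 := by
    unfold jj; cases s <;> simp
  have he0 : 0 ≤ 6 * κ + 2 * rho i + jj s := by
    rcases hκ with h | h <;> rcases hρ with h' | h' <;> rcases hj with h'' | h'' <;>
      rw [h, h', h''] <;> norm_num
  have he1 : 6 * κ + 2 * rho i + jj s ≤ 9 := by
    rcases hκ with h | h <;> rcases hρ with h' | h' <;> rcases hj with h'' | h'' <;>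
      rw [h, h', h''] <;> norm_num
  have hp : pp n i t κ s = (cc n + lc i * 4 ^ Nat.size n) + 12 * (Mo n : ℤ) * t +
      Mo n * (6 * κ + 2 * rho i + jj s) := by
    unfold pp; ring
  have hme0 : 0 ≤ (Mo n : ℤ) * (6 * κ + 2 * rho i + jj s) := mul_nonneg hM he0
  have hme1 : (Mo n : ℤ) * (6 * κ + 2 * rho i + jj s) ≤ Mo n * 9 :=
    mul_le_mul_of_nonneg_left he1 hM
  rw [hp]
  constructor <;> linarith

theorem zon (h1 : T_GSZ) (h2 : T_LNS) : T_ZON := by
  intro d P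
  obtain ⟨-, -, -, -, -, g6⟩ := h1 d P
  refine ⟨?_, ?_, ?_⟩
  · intro n i t κ s hV hi hg hκ
    obtain ⟨hX1, -, hX2⟩ := g6 n i hV hi
    obtain ⟨ht0, ht1⟩ := P.gsupp n i t hV hi hg
    obtain ⟨hp0, hp1⟩ := pp_form h2 n i t κ s hκ
    have hb0 : 12 * (Mo n : ℤ) * P.b n i 0 = P.X (ps n i) := by exact_mod_cast P.hb0 n i hV hi
    have hbN : 12 * (Mo n : ℤ) * P.b n i (P.N n i) = P.X (slot n i) := by
      exact_mod_cast P.hbN n i hV hi
    have hX1' : 40 * (Mo n : ℤ) ≤ P.X (ps n i) := by exact_mod_cast hX1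
    have hX2' : 1024 * (P.X (ps n i) : ℤ) ≤ P.X (slot n i) := by exact_mod_cast hX2
    have hM : (0 : ℤ) ≤ 12 * (Mo n : ℤ) := by positivity
    have hM' : (0 : ℤ) ≤ (Mo n : ℤ) := by positivity
    have hA : 12 * (Mo n : ℤ) * (P.b n i 0 : ℤ) ≤ 12 * (Mo n : ℤ) * (2 * |t|) :=
      mul_le_mul_of_nonneg_left ht0 hM
    have hB : 12 * (Mo n : ℤ) * |t| ≤ 12 * (Mo n : ℤ) * (2 * (P.b n i (P.N n i) : ℤ)) :=
      mul_le_mul_of_nonneg_left ht1.le hM
    have habs : |12 * (Mo n : ℤ) * t| = 12 * (Mo n : ℤ) * |t| := by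
      rw [abs_mul, abs_of_nonneg hM]
    have hd : |pp n i t κ s - 12 * (Mo n : ℤ) * t| ≤ 10 * Mo n := by
      rw [abs_of_nonneg (by linarith)]; linarith
    have hlo : 12 * (Mo n : ℤ) * |t| ≤ |pp n i t κ s| + 10 * Mo n := by
      rw [← habs]
      have := abs_sub_abs_le_abs_sub (12 * (Mo n : ℤ) * t) (pp n i t κ s)
      rw [abs_sub_comm] at this
      linarith
    have hhi : |pp n i t κ s| ≤ 12 * (Mo n : ℤ) * |t| + 10 * Mo n := by
      rw [← habs]
      have := abs_sub_abs_le_abs_sub (pp n i t κ s) (12 * (Mo n : ℤ) * t)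
      linarith
    constructor <;> linarith
  · intro n i z hz
    obtain ⟨-, h0, h1, -⟩ := hz
    refine ⟨h0, ?_⟩
    have : (P.L (slot n i) : ℤ) ≤ P.X (slot n i) := by exact_mod_cast (P.hL (slot n i)).2
    linarith
  · intro n i m s z hV hi hm hz
    have hM : (0 : ℤ) ≤ 12 * (Mo n : ℤ) := by positivity
    have hM' : (0 : ℤ) < (Mo n : ℤ) := by
      have : 0 < Mo n := by unfold Mo; positivity
      exact_mod_cast this
    have key : ∀ κ t, (κ = 0 ∨ κ = 1) → t ∈ P.T n i m → z = pp n i t κ s →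
        12 * (Mo n : ℤ) * P.b n i m ≤ z ∧ z < 12 * (Mo n : ℤ) * P.b n i (m + 1) := by
      intro κ t hκ ht hz
      obtain ⟨hp0, hp1⟩ := pp_form h2 n i t κ s hκ
      have hmem := (P.hT n i m hV hi hm).1 ht
      rw [mem_Ico] at hmem
      obtain ⟨ha, hb⟩ := hmem
      have hA := mul_le_mul_of_nonneg_left ha hM
      have hb' : t + 1 ≤ (P.b n i (m + 1) : ℤ) := hb
      have hB := mul_le_mul_of_nonneg_left hb' hM
      have hC : 12 * (Mo n : ℤ) * (t + 1) = 12 * (Mo n : ℤ) * t + 12 * Mo n := by ring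
      rw [hz]
      constructor <;> linarith
    rcases hz with hz | hz
    · unfold Pos.AB at hz
      rw [mem_image] at hz
      obtain ⟨t, ht, rfl⟩ := hz
      refine key (iA (P.g n i t)) t ?_ ht rfl
      unfold iA; split_ifs <;> simp
    · unfold Pos.EB at hz
      rw [mem_image] at hz
      obtain ⟨t, ht, rfl⟩ := hz
      refine key (iE (P.g n i t)) t ?_ ht rfl
      unfold iE; split_ifs <;> simp

end Pool.Agent.H16.GT
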